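import Pool.Agent.Q75.HM.Stm

set_option autoImplicit false

namespace Pool.Agent.Q137.HM

open Complex Set Metric Filter Topology
open Pool.Agent.Q75.HM

private theorem re_lt_of_ball {z w : ℂ} {r : ℝ} (h : w ∈ ball z r) : |w.re - z.re| < r := by
  have h1 := Complex.abs_re_le_norm (w - z)
  rw [mem_ball, dist_eq_norm] at h
  rw [← Complex.sub_re]
  exact lt_of_le_of_lt h1 h

private theorem im_lt_of_ball {z w : ℂ} {r : ℝ} (h : w ∈ ball z r) : |w.im - z.im| < r := by
  have h1 := Complex.abs_im_le_norm (w - z)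
  rw [mem_ball, dist_eq_norm] at h
  rw [← Complex.sub_im]
  exact lt_of_le_of_lt h1 h

private theorem dist_rf (t : ℝ) (z w : ℂ) : dist (rf t w) (rf t z) = dist w z := by
  rw [Complex.dist_eq_re_im, Complex.dist_eq_re_im]
  simp only [rf]
  congr 1
  ring

theorem t_LB : S_LB := by
  intro G t p 𝒰 hG hp hlim
  obtain ⟨hopen, hLD⟩ := hG
  have hev : ∀ s : ℝ, s < t → ∀ᶠ n in (𝒰 : Filter ℕ), s < p n := fun s hs =>
    hlim.eventually (lt_mem_nhds hs)
  constructor
  · intro z hz
    rcases hz with (⟨h1, h2⟩ | ⟨h1, h2⟩) | ⟨y, h1, h2⟩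
    · obtain ⟨r0, hr0, hb⟩ := Metric.isOpen_iff.mp hopen z h2
      refine ⟨min r0 ((t - z.re) / 2), lt_min hr0 (by linarith), ?_⟩
      filter_upwards [hev ((t + z.re) / 2) (by linarith)] with n hn w hw
      left; left
      have hw1 : w ∈ ball z r0 := ball_subset_ball (min_le_left _ _) hw
      have hw2 := re_lt_of_ball (ball_subset_ball (min_le_right _ _) hw)
      have hw3 := (abs_lt.mp hw2).2
      exact ⟨by linarith, hb hw1⟩
    · obtain ⟨r0, hr0, hb⟩ := Metric.isOpen_iff.mp hopen _ h2
      refine ⟨min r0 (z.re - t), lt_min hr0 (by linarith), ?_⟩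
      filter_upwards with n w hw
      left; right
      have hw1 : w ∈ ball z r0 := ball_subset_ball (min_le_left _ _) hw
      have hw2 := re_lt_of_ball (ball_subset_ball (min_le_right _ _) hw)
      have hw3 := (abs_lt.mp hw2).1
      have hn := hp n
      refine ⟨by linarith, ?_⟩
      have h3 : rf t w ∈ G := hb (by rw [mem_ball, dist_rf]; exact hw1)
      exact hLD _ h3 _ (by simp only [rf]; linarith) (by simp only [rf]; exact le_refl _)
    · refine ⟨y - |z.im|, by linarith, ?_⟩
      filter_upwards with n w hw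
      right
      refine ⟨y, ?_, fun v hv => h2 ⟨lt_trans hv.1 (hp n), hv.2⟩⟩
      have h3 := im_lt_of_ball hw
      have h4 : |w.im| ≤ |w.im - z.im| + |z.im| := by
        have := abs_add_le (w.im - z.im) z.im
        simpa using this
      linarith
  · intro z r hr hb
    rcases lt_trichotomy z.re t with h | h | h
    · obtain ⟨n, hn1, hn2⟩ := (hb.and (hev z.re h)).exists
      left; left
      refine ⟨h, ?_⟩
      rcases hn1 (mem_ball_self hr) with (⟨_, h2⟩ | ⟨h1, _⟩) | ⟨y, h1, h2⟩
      · exact h2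
      · exact absurd hn2 (not_lt.mpr h1.le)
      · exact h2 ⟨hn2, h1⟩
    · right
      refine ⟨|z.im| + r / 2, by linarith, ?_⟩
      intro w hw
      obtain ⟨hw1, hw2⟩ := hw
      obtain ⟨n, ⟨hn1, hn2⟩, hn3⟩ := ((hb.and (hev w.re hw1)).and (hev (t - r / 2) (by linarith))).exists
      obtain ⟨s, hs, hsz⟩ : ∃ s : ℝ, |s| = r / 2 ∧ |z.im + s| = |z.im| + r / 2 := by
        rcases le_total 0 z.im with h0 | h0
        · exact ⟨r / 2, abs_of_pos (by linarith), by
            rw [abs_of_nonneg h0, abs_of_nonneg (by linarith)]⟩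
        · exact ⟨-(r / 2), by rw [abs_neg, abs_of_pos (by linarith)], by
            rw [abs_of_nonpos h0, abs_of_nonpos (by linarith)]; ring⟩
      have hv : (⟨p n, z.im + s⟩ : ℂ) ∈ ball z r := by
        rw [mem_ball, Complex.dist_eq_re_im]
        have hpn := hp n
        have e1 : (p n - z.re) ^ 2 < (r / 2) ^ 2 := by
          apply sq_lt_sq'
          · rw [h]; linarith
          · rw [h]; linarith
        have e2 : (z.im + s - z.im) ^ 2 = (r / 2) ^ 2 := by
          rw [← hs, sq_abs]; ring
        simp only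
        rw [Real.sqrt_lt' hr, e2]
        nlinarith
      rcases hn1 hv with (⟨h1, _⟩ | ⟨h1, _⟩) | ⟨y, h1, h2⟩
      · exact absurd h1 (lt_irrefl _)
      · exact absurd h1 (lt_irrefl _)
      · simp only at h1
        rw [hsz] at h1
        exact h2 ⟨hn2, lt_trans hw2 h1⟩
    · left; right
      refine ⟨h, ?_⟩
      set r' := min r (z.re - t) with hr'
      have hr'0 : 0 < r' := lt_min hr (by linarith)
      have hr'1 : r' ≤ r := min_le_left _ _
      have hr'2 : r' ≤ z.re - t := min_le_right _ _
      obtain ⟨n, ⟨hn1, hn2⟩, hn3⟩ := ((hb.and (hev (2 * t - z.re) (by linarith))).and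
        (hev (t - r' / 4) (by linarith))).exists
      have hpn := hp n
      have hv : (⟨z.re - r' / 2, z.im⟩ : ℂ) ∈ ball z r := by
        rw [mem_ball, Complex.dist_eq_re_im]
        simp only
        rw [Real.sqrt_lt' hr]
        nlinarith
      rcases hn1 hv with (⟨h1, _⟩ | ⟨_, h2⟩) | ⟨y, h1, h2⟩
      · simp only at h1
        linarith
      · exact hLD _ h2 _ (by simp only [rf]; linarith) (by simp only [rf]; exact le_refl _)
      · exact h2 ⟨by simp only [rf]; linarith, by simp only [rf]; simpa using h1⟩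

end Pool.Agent.Q137.HM
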